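import Pool.Agent.Helper69.GPM.mExit
import Pool.Agent.Helper39.GPM.mBd
import Pool.Agent.Helper4.GPM.mFollow
import Pool.Agent.Helper8.GPM.mTransfer
import Pool.Agent.Helper89.GPM.mUnion
import Pool.Agent.Helper89.GPM.stMAtt
import Pool.Agent.Helper63.GPM.stSel
import Pool.Agent.Helper51.GPM.stCut1
import Pool.Agent.Helper78.GPM.stCut2
import Pool.Agent.Helper7.GPM.stPocket
import Pool.Agent.Helper90.GPM.stWedge
import Pool.Agent.Helper83.GPM.stDrop

/-!
# Gilbert-Pollak, chapter MSTF: the statements of the chapter, proved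
-/

namespace Pool.Agent.Helper52.GPM

open Pool.Agent.Helper18.GP

theorem mExit_proved : mExit := Pool.Agent.Helper69.GPM.mod_mExit
theorem mBd_proved : mBd := Pool.Agent.Helper39.GPM.mod_mBd
theorem mFollow_proved : mFollow := Pool.Agent.Helper4.GPM.mod_mFollow mExit_proved
theorem mTransfer_proved : mTransfer := Pool.Agent.Helper8.GPM.mod_mTransfer mExit_proved
theorem stMAtt_proved : stMAtt := Pool.Agent.Helper89.GPM.mod_stMAtt
theorem mUnion_proved : mUnion := Pool.Agent.Helper89.GPM.mod_mUnion stMAtt_proved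
theorem stSel_proved : stSel := Pool.Agent.Helper63.GPM.mod_stSel mExit_proved
theorem stCut1_proved : stCut1 :=
  Pool.Agent.Helper51.GPM.mod_stCut1 mBd_proved mFollow_proved mUnion_proved
theorem stCut2_proved : stCut2 :=
  Pool.Agent.Helper78.GPM.mod_stCut2 mBd_proved mFollow_proved mUnion_proved
theorem stPocket_proved : stPocket :=
  Pool.Agent.Helper7.GPM.mod_stPocket mBd_proved mTransfer_proved stMAtt_proved
theorem stWedge_proved : stWedge :=
  Pool.Agent.Helper90.GPM.mod_stWedge mExit_proved mBd_proved mFollow_proved mUnion_proved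
    stPocket_proved
theorem stDrop_proved : stDrop := Pool.Agent.Helper83.GPM.mod_stDrop stPocket_proved

end Pool.Agent.Helper52.GPM
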