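import Pool.Agent.Helper52.GPM.S

/-!
# All optimal sets have the same weights
-/

namespace Pool.Agent.Helper52.GPM

open Relation Classical Pool.Agent.Helper18.GP

theorem mod_xSame (hC : xLoop ∧ xEx ∧ xSplit ∧ xBridge ∧ xExch) (hS : xStep) : xSame := by
  intro N V w F hw m m2 hm hm2 φ
  obtain ⟨-, -, -, hB, -⟩ := hC
  have key : ∀ k : ℕ, ∀ m : Finset (Fin N × Fin N), (m \ m2).card = k → Opt V w F m →
      ∑ e ∈ m, φ (w e.1 e.2) = ∑ e ∈ m2, φ (w e.1 e.2) := by
    intro k
    induction k with
    | zero =>
      intro m hk hm
      have hsub : m ⊆ m2 := by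
        rw [Finset.card_eq_zero, Finset.sdiff_eq_empty_iff_subset] at hk
        exact hk
      have heq : m = m2 := by
        apply Finset.Subset.antisymm hsub
        intro f hf
        by_contra hfm
        have hV := hm2.1.1 f hf
        have h1 := hm.1.2 f.1 hV.1 f.2 hV.2
        apply hB N V w F hw m2 hm2 f.1 f.2 hf
        refine EqvGen.mono (fun x y hxy => ?_) _ _ h1
        change (x, y) ∈ m ∨ F x y at hxy
        rcases hxy with hxy | hxy
        · left
          rw [Finset.mem_erase]
          refine ⟨?_, hsub hxy⟩
          rintro h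
          apply hfm
          rw [h] at hxy
          exact hxy
        · exact Or.inr hxy
      rw [heq]
    | succ k ih =>
      intro m hk hm
      have hne : (m \ m2).Nonempty := by
        rw [← Finset.card_pos]; omega
      obtain ⟨e, he⟩ := hne
      rw [Finset.mem_sdiff] at he
      obtain ⟨f, hf, hfm, hwf, hO⟩ := hS N V w F hw m m2 hm hm2 e he.1 he.2
      have hcard : ((insert f (m.erase e)) \ m2).card = k := by
        have : (insert f (m.erase e)) \ m2 = (m \ m2).erase e := by
          ext x
          simp only [Finset.mem_sdiff, Finset.mem_insert, Finset.mem_erase]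
          constructor
          · rintro ⟨h1 | h1, h2⟩
            · exact absurd (h1 ▸ hf) h2
            · exact ⟨h1.1, h1.2, h2⟩
          · rintro ⟨h1, h2, h3⟩
            exact ⟨Or.inr ⟨h1, h2⟩, h3⟩
        rw [this, Finset.card_erase_of_mem (Finset.mem_sdiff.2 he), hk]
        rfl
      rw [← ih _ hcard hO, Finset.sum_insert (fun h => hfm (Finset.mem_of_mem_erase h)), hwf,
        Finset.add_sum_erase m (fun e => φ (w e.1 e.2)) he.1]
  exact key _ m rfl hm

end Pool.Agent.Helper52.GPM
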