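import Pool.Agent.Helper52.GPM.All
import Pool.Agent.Helper83.GPM.xUse
import Pool.Agent.Helper83.GPM.xVtx
import Pool.Agent.Helper12.GPM.xCore
import Pool.Agent.Helper81.GPM.xBott
import Pool.Agent.Helper52.GPM.xSame
import Pool.Agent.Helper19.GPM.xCard
import Pool.Agent.Helper11.GPM.xPert
import Pool.Agent.Helper49.GPM.xStep

/-!
# Gilbert-Pollak, chapter MSTF: the exchange facts, proved
-/

namespace Pool.Agent.Helper52.GPM

open Pool.Agent.Helper18.GP

theorem xUse_proved : xUse := Pool.Agent.Helper83.GPM.mod_xUse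
theorem xCore_proved : xLoop ∧ xEx ∧ xSplit ∧ xBridge ∧ xExch :=
  Pool.Agent.Helper12.GPM.mod_xCore xUse_proved stMAtt_proved
theorem xLoop_proved : xLoop := xCore_proved.1
theorem xEx_proved : xEx := xCore_proved.2.1
theorem xSplit_proved : xSplit := xCore_proved.2.2.1
theorem xBridge_proved : xBridge := xCore_proved.2.2.2.1
theorem xExch_proved : xExch := xCore_proved.2.2.2.2
theorem xVtx_proved : xVert ∧ xFree ∧ xClear ∧ xNoX :=
  Pool.Agent.Helper83.GPM.mod_xVtx xCore_proved
theorem xVert_proved : xVert := xVtx_proved.1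
theorem xFree_proved : xFree := xVtx_proved.2.1
theorem xClear_proved : xClear := xVtx_proved.2.2.1
theorem xNoX_proved : xNoX := xVtx_proved.2.2.2
theorem xBott_proved : xBott := Pool.Agent.Helper81.GPM.mod_xBott xUse_proved xCore_proved
theorem xCard_proved : xCard := Pool.Agent.Helper19.GPM.mod_xCard xUse_proved xCore_proved
theorem xStep_proved : xStep := Pool.Agent.Helper49.GPM.mod_xStep xCore_proved xBott_proved
theorem xSame_proved : xSame :=
  Pool.Agent.Helper52.GPM.mod_xSame xCore_proved xStep_proved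
theorem xPert_proved : xPert :=
  Pool.Agent.Helper11.GPM.mod_xPert stMAtt_proved xCore_proved xSame_proved

end Pool.Agent.Helper52.GPM
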