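import Pool.Agent.Helper18.GP.Cyc

/-!
# Gilbert-Pollak, chapter MSTF: internal statements
Modules prove them; later ones take the earlier ones as hypotheses.
-/

namespace Pool.Agent.Helper52.GPM

open Relation Classical Pool.Agent.Helper18.GP

/-! ## paths of free sides and arcs -/

/-- a side leaves an arc only through an end of the arc -/
def mExit : Prop := ∀ (N : ℕ) (V : Finset (Fin N)) (w u x y : Fin N), w ∈ V → u ∈ V → w ≠ u →
  (Bd V x y ∨ Bd V y x) → x ∈ Arc V w u → y ∉ Arc V w u → x = w ∨ x = u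

/-- a path of free sides that starts in an arc stays in the arc or reaches an end inside the arc -/
def mFollow : Prop := ∀ (N : ℕ) (V : Finset (Fin N)) (F : Fin N → Fin N → Prop),
  (∀ a b, F a b → Bd V a b) → ∀ w ∈ V, ∀ u ∈ V, w ≠ u → ∀ v ∈ Arc V w u, ∀ c, EqvGen F v c →
  (c ∈ Arc V w u ∧ EqvGen (Fr F (Arc V w u)) v c) ∨
    EqvGen (Fr F (Arc V w u)) v w ∨ EqvGen (Fr F (Arc V w u)) v u

/-- sides of `V` inside an arc are sides of the arc, and the chord closing the arc is a side -/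
def mBd : Prop := ∀ (N : ℕ) (V : Finset (Fin N)) (w u : Fin N), w ∈ V → u ∈ V → w ≠ u →
  (∀ x y, Bd V x y → x ∈ Arc V w u → y ∈ Arc V w u → Bd (Arc V w u) x y) ∧
  Bd (Arc V w u) w u ∧ Bd (Arc V w u) u w

/-- transfer: connections by free sides between points of the arc `[a,b]` survive in the arc when
the passage through the other arc is added -/
def mTransfer : Prop := ∀ (N : ℕ) (V : Finset (Fin N)) (F F' : Fin N → Fin N → Prop),
  (∀ a b, F a b → Bd V a b) → ∀ a ∈ V, ∀ b ∈ V, a ≠ b →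
  (∀ x y, Fr F (Arc V a b) x y → EqvGen F' x y) →
  (EqvGen (Fr F (Arc V b a)) a b → EqvGen F' a b) →
  ∀ v ∈ Arc V a b, ∀ y ∈ Arc V a b, EqvGen F v y → EqvGen F' v y

/-- gluing of connecting sets -/
def mUnion : Prop := ∀ (N : ℕ) (V S₁ S₂ : Finset (Fin N)) (F F₁ F₂ : Fin N → Fin N → Prop)
  (d : Fin N → Fin N → ℝ), (∀ a ∈ V, ∀ b ∈ V, 0 ≤ d a b) →
  S₁ ⊆ V → S₂ ⊆ V → (∀ v ∈ V, v ∈ S₁ ∨ v ∈ S₂) → (∃ v, v ∈ S₁ ∧ v ∈ S₂) →
  (∀ x y, F₁ x y → F x y) →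
  (∀ m, MConn S₁ F₁ m → ∀ x y, F₂ x y → EqvGen (fun x y => (x, y) ∈ m ∨ F x y) x y) →
  Mst V d F ≤ Mst S₁ d F₁ + Mst S₂ d F₂

/-! ## optimal connecting sets -/

/-- optimal connecting sets without loops -/
def Opt {N : ℕ} (V : Finset (Fin N)) (w : Fin N → Fin N → ℝ) (F : Fin N → Fin N → Prop)
    (m : Finset (Fin N × Fin N)) : Prop :=
  MConn V F m ∧ mw w m = Mst V w F ∧ ∀ e ∈ m, e.1 ≠ e.2

/-- symmetric weights, positive off the diagonal, zero on the diagonal -/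
structure WP {N : ℕ} (V : Finset (Fin N)) (w : Fin N → Fin N → ℝ) : Prop where
  sy : ∀ a ∈ V, ∀ b ∈ V, w a b = w b a
  po : ∀ a ∈ V, ∀ b ∈ V, a ≠ b → 0 < w a b
  di : ∀ a ∈ V, w a a = 0

/-- the relation generated by `m` and `F` -/
def mr {N : ℕ} (m : Finset (Fin N × Fin N)) (F : Fin N → Fin N → Prop) : Fin N → Fin N → Prop :=
  fun x y => (x, y) ∈ m ∨ F x y

/-- a connection uses the pair `(a,b)` at most once -/
def xUse : Prop := ∀ (N : ℕ) (F : Fin N → Fin N → Prop) (m : Finset (Fin N × Fin N))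
  (a b x y : Fin N), EqvGen (mr m F) x y →
  EqvGen (mr (m.erase (a, b)) F) x y ∨
  (EqvGen (mr (m.erase (a, b)) F) x a ∧ EqvGen (mr (m.erase (a, b)) F) b y) ∨
  (EqvGen (mr (m.erase (a, b)) F) x b ∧ EqvGen (mr (m.erase (a, b)) F) a y)

def xEx : Prop := ∀ (N : ℕ) (V : Finset (Fin N)) (w : Fin N → Fin N → ℝ)
  (F : Fin N → Fin N → Prop), WP V w → ∃ m, Opt V w F m

/-- loops can be removed from an optimal set -/
def xLoop : Prop := ∀ (N : ℕ) (V : Finset (Fin N)) (w : Fin N → Fin N → ℝ)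
  (F : Fin N → Fin N → Prop), WP V w → ∀ m, MConn V F m →
  MConn V F (m.filter fun e => e.1 ≠ e.2) ∧ mw w (m.filter fun e => e.1 ≠ e.2) = mw w m

/-- after deleting a pair every vertex is joined to one of its ends -/
def xSplit : Prop := ∀ (N : ℕ) (V : Finset (Fin N)) (F : Fin N → Fin N → Prop)
  (m : Finset (Fin N × Fin N)), MConn V F m → ∀ a b, (a, b) ∈ m → ∀ c ∈ V,
  EqvGen (mr (m.erase (a, b)) F) c a ∨ EqvGen (mr (m.erase (a, b)) F) c b

/-- pairs of an optimal set are bridges -/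
def xBridge : Prop := ∀ (N : ℕ) (V : Finset (Fin N)) (w : Fin N → Fin N → ℝ)
  (F : Fin N → Fin N → Prop), WP V w → ∀ m, Opt V w F m → ∀ a b, (a, b) ∈ m →
  ¬ EqvGen (mr (m.erase (a, b)) F) a b

/-- exchange -/
def xExch : Prop := ∀ (N : ℕ) (V : Finset (Fin N)) (w : Fin N → Fin N → ℝ)
  (F : Fin N → Fin N → Prop), WP V w → ∀ m, Opt V w F m → ∀ a b, (a, b) ∈ m →
  ∀ c ∈ V, ∀ c' ∈ V, EqvGen (mr (m.erase (a, b)) F) c a →
    EqvGen (mr (m.erase (a, b)) F) c' b → w a b ≤ w c c'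

/-- the exchange fact for one vertex -/
def xVert : Prop := ∀ (N : ℕ) (V : Finset (Fin N)) (w : Fin N → Fin N → ℝ)
  (F : Fin N → Fin N → Prop), WP V w → ∀ m, Opt V w F m → ∀ a b, (a, b) ∈ m →
  ∀ c ∈ V, w a b ≤ w a c ∨ w a b ≤ w c b

/-- optimal pairs are not joined by free sides -/
def xFree : Prop := ∀ (N : ℕ) (V : Finset (Fin N)) (w : Fin N → Fin N → ℝ)
  (F : Fin N → Fin N → Prop), WP V w → ∀ m, Opt V w F m → ∀ a b, (a, b) ∈ m → ¬ EqvGen F a b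

/-- optimal pairs have no vertex between their ends -/
def xClear : Prop := ∀ (N : ℕ) (V : Finset (Fin N)) (w : Fin N → Fin N → ℝ)
  (F : Fin N → Fin N → Prop), WP V w → ∀ m, Opt V w F m → ∀ a b, (a, b) ∈ m →
  ∀ u ∈ V, u ≠ a → u ≠ b → w a b < w a u + w u b

/-- optimal pairs do not cross -/
def xNoX : Prop := ∀ (N : ℕ) (V : Finset (Fin N)) (w : Fin N → Fin N → ℝ)
  (F : Fin N → Fin N → Prop), WP V w → ∀ m m', Opt V w F m → Opt V w F m' →
  ∀ a b c d, (a, b) ∈ m → (c, d) ∈ m' → ∀ α β γ δ : ℝ, 0 < α → 0 < β → 0 < γ → 0 < δ →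
  w a b = α + β → w c d = γ + δ → w a c < α + γ → w a d < α + δ → w b c < β + γ →
  w b d < β + δ → False

/-- bottleneck property -/
def xBott : Prop := ∀ (N : ℕ) (V : Finset (Fin N)) (w : Fin N → Fin N → ℝ)
  (F : Fin N → Fin N → Prop), WP V w → ∀ m, Opt V w F m → ∀ a ∈ V, ∀ b ∈ V,
  EqvGen (fun x y => ((x, y) ∈ m ∧ w x y ≤ w a b) ∨ F x y) a b

/-- one exchange step from `m` towards `m'` -/
def xStep : Prop := ∀ (N : ℕ) (V : Finset (Fin N)) (w : Fin N → Fin N → ℝ)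
  (F : Fin N → Fin N → Prop), WP V w → ∀ m m', Opt V w F m → Opt V w F m' →
  ∀ e ∈ m, e ∉ m' → ∃ f ∈ m', f ∉ m ∧ w f.1 f.2 = w e.1 e.2 ∧ Opt V w F (insert f (m.erase e))

/-- all optimal sets have the same weights -/
def xSame : Prop := ∀ (N : ℕ) (V : Finset (Fin N)) (w : Fin N → Fin N → ℝ)
  (F : Fin N → Fin N → Prop), WP V w → ∀ m m', Opt V w F m → Opt V w F m' → ∀ φ : ℝ → ℝ,
  ∑ e ∈ m, φ (w e.1 e.2) = ∑ e ∈ m', φ (w e.1 e.2)

/-- number of pairs when there are no free sides -/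
def xCard : Prop := ∀ (N : ℕ) (V : Finset (Fin N)) (w : Fin N → Fin N → ℝ)
  (F : Fin N → Fin N → Prop), WP V w → ∀ m, Opt V w F m → m.card ≤ V.card - 1

/-- first order perturbation of the least weight -/
def xPert : Prop := ∀ (N : ℕ) (V : Finset (Fin N)) (w : Fin N → Fin N → ℝ)
  (F : Fin N → Fin N → Prop) (wt : ℝ → Fin N → Fin N → ℝ) (k : ℝ → ℝ) (D : ℝ), WP V w →
  (∀ t a b, 0 ≤ wt t a b) → (∀ a ∈ V, ∀ b ∈ V, wt 0 a b = w a b) →
  (∀ a ∈ V, ∀ b ∈ V, ContinuousAt (fun t => wt t a b) 0) →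
  (∃ m, Opt V w F m ∧ D = ∑ e ∈ m, k (w e.1 e.2) * w e.1 e.2) →
  (∀ m, Opt V w F m → ∀ e ∈ m, ∃ ε > 0, ∀ t : ℝ, |t| < ε →
    w e.1 e.2 * (1 + t * k (w e.1 e.2)) ≤ wt t e.1 e.2) →
  ∃ ε > 0, ∀ t : ℝ, |t| < ε → Mst V w F + t * D ≤ Mst V (wt t) F

end Pool.Agent.Helper52.GPM
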